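import Pool.Agent.H82.LB.Targets

/-!
# A common class of amplitudes and of numbers of planks per tube (row LB1 of `lmb_modules`)
-/

set_option autoImplicit false

namespace Pool.Agent.H68.LB

open MeasureTheory Set
open Pool.Agent.H83.G
open Pool.Agent.H82.LB

private lemma dyad (x : ℝ) (hx : 1 < x) : ∀ p : ℕ, x ≤ 2 ^ p →
    ∃ i : ℕ, i < p ∧ 2 ^ i < x ∧ x ≤ 2 ^ (i + 1) := by
  intro p
  induction p with
  | zero =>
    intro h
    rw [pow_zero] at h
    linarith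
  | succ p ih =>
    intro h
    by_cases h1 : x ≤ 2 ^ p
    · obtain ⟨i, h2, h3⟩ := ih h1
      exact ⟨i, by omega, h3⟩
    · exact ⟨p, by omega, not_le.mp h1, h⟩

open scoped Classical in
theorem pf_LB1 (hBRS : T_BRS) (_hBRM : T_BRM) : T_LB1 := by
  intro ι α β γ K n p I c S X f al tb a₀ H ha₀ hH hp hcard hal hsmall hbr
  -- the dyadic level
  have hlev : ∀ j W, ∃ i : ℕ, a₀ < al j W → al j W ≤ 2 ^ p * a₀ →
      i < p ∧ 2 ^ i * a₀ < al j W ∧ al j W ≤ 2 ^ (i + 1) * a₀ := by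
    intro j W
    by_cases h1 : a₀ < al j W ∧ al j W ≤ 2 ^ p * a₀
    · obtain ⟨i, h2, h3, h4⟩ := dyad (al j W / a₀) ((one_lt_div ha₀).mpr h1.1) p
        ((div_le_iff₀ ha₀).mpr h1.2)
      exact ⟨i, fun _ _ => ⟨h2, (lt_div_iff₀ ha₀).mp h3, (div_le_iff₀ ha₀).mp h4⟩⟩
    · exact ⟨0, fun h2 h3 => absurd ⟨h2, h3⟩ h1⟩
  choose lev hlev using hlev
  obtain ⟨T, hT⟩ : ∃ T : ι → Finset α, ∀ j, T j = (S j).filter fun W => a₀ < al j W :=
    ⟨_, fun _ => rfl⟩
  have hTS : ∀ j, T j ⊆ S j := fun j => by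
    rw [hT]
    exact Finset.filter_subset _ _
  have hTa : ∀ j, ∀ W ∈ T j, a₀ < al j W := fun j W hW => by
    rw [hT, Finset.mem_filter] at hW
    exact hW.2
  obtain ⟨cnt, hcnt⟩ : ∃ cnt : ι → α → ℕ, ∀ j W, cnt j W =
      ((T j).filter fun W' => lev j W' = lev j W ∧ tb W' = tb W).card := ⟨_, fun _ _ => rfl⟩
  obtain ⟨g, hg⟩ : ∃ g : ι → α → ℕ × ℕ, ∀ j W, g j W = (lev j W, Nat.log 2 (cnt j W)) :=
    ⟨_, fun _ _ => rfl⟩
  have hcnt0 : ∀ j, ∀ W ∈ T j, cnt j W ≠ 0 := by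
    intro j W hW
    rw [hcnt]
    exact (Finset.card_pos.mpr ⟨W, Finset.mem_filter.mpr ⟨hW, rfl, rfl⟩⟩).ne'
  have hcnt1 : ∀ j ∈ I, ∀ W, cnt j W ≤ 2 ^ p := by
    intro j hj W
    rw [hcnt]
    exact ((Finset.card_filter_le _ _).trans (Finset.card_le_card (hTS j))).trans (hcard j hj)
  obtain ⟨Lab, hLab⟩ : ∃ Lab : Finset (ℕ × ℕ), Lab = Finset.range p ×ˢ Finset.range (4 * p) :=
    ⟨_, rfl⟩
  have hLc : Lab.card = 4 * p ^ 2 := by
    rw [hLab, Finset.card_product, Finset.card_range, Finset.card_range]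
    ring
  have hmaps : ∀ j ∈ I, ∀ W ∈ T j, g j W ∈ Lab := by
    intro j hj W hW
    rw [hg, hLab, Finset.mem_product, Finset.mem_range, Finset.mem_range]
    refine ⟨(hlev j W (hTa j W hW) (hal j hj W (hTS j hW))).1, ?_⟩
    have h1 : Nat.log 2 (cnt j W) ≤ Nat.log 2 (2 ^ p) := Nat.log_mono_right (hcnt1 j hj W)
    rw [Nat.log_pow (by norm_num)] at h1
    show Nat.log 2 (cnt j W) < 4 * p
    omega
  -- the labels of the points
  have hex : ∀ z ∈ X, ∃ l ∈ Lab, Brm K n (H / (2 * Lab.card)) I c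
      fun j => ∑ W ∈ (T j).filter (fun W => g j W = l), f j W z := by
    intro z hz
    refine hBRS ι (ℕ × ℕ) K H n I c Lab (fun j => ∑ W ∈ S j, f j W z)
      (fun l j => ∑ W ∈ (T j).filter (fun W => g j W = l), f j W z) hH ?_ ?_
    · intro j hj
      have h1 : ∑ l ∈ Lab, ∑ W ∈ (T j).filter (fun W => g j W = l), f j W z =
          ∑ W ∈ T j, f j W z :=
        Finset.sum_fiberwise_of_maps_to (hmaps j hj) _
      have h2 : ∑ W ∈ S j, f j W z = ∑ W ∈ T j, f j W z +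
          ∑ W ∈ (S j).filter (fun W => ¬ a₀ < al j W), f j W z := by
        rw [hT]
        exact (Finset.sum_filter_add_sum_filter_not _ _ _).symm
      show ‖∑ W ∈ S j, f j W z -
        ∑ l ∈ Lab, ∑ W ∈ (T j).filter (fun W => g j W = l), f j W z‖ ≤ H / 2
      rw [h1, h2, add_sub_cancel_left]
      refine (norm_sum_le _ _).trans (hsmall z hz j hj _ (Finset.filter_subset _ _) ?_)
      intro W hW
      exact not_lt.mp (Finset.mem_filter.mp hW).2
    · rw [hLc]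
      exact hbr z hz
  have hp0 : (0 : ℝ) < p := by exact_mod_cast hp
  have hHeq : H / (2 * (Lab.card : ℝ)) = H / (8 * (p : ℝ) ^ 2) := by
    rw [hLc]
    push_cast
    congr 1
    ring
  rw [hHeq] at hex
  have hLne : Lab.Nonempty := by
    rw [← Finset.card_pos, hLc]
    positivity
  -- the label of a point
  obtain ⟨lab, hlab⟩ : ∃ lab : β → ℕ × ℕ, ∀ z ∈ X, lab z ∈ Lab ∧
      Brm K n (H / (8 * (p : ℝ) ^ 2)) I c
        fun j => ∑ W ∈ (T j).filter (fun W => g j W = lab z), f j W z := by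
    choose! lab h1 h2 using hex
    exact ⟨lab, fun z hz => ⟨h1 z hz, h2 z hz⟩⟩
  obtain ⟨l₀, hl₀, hmax⟩ := Finset.exists_max_image Lab
    (fun l => (X.filter fun z => lab z = l).card) hLne
  refine ⟨fun j => (T j).filter fun W => g j W = l₀, X.filter fun z => lab z = l₀,
    2 ^ l₀.1 * a₀, 2 ^ l₀.2, fun j => (Finset.filter_subset _ _).trans (hTS j),
    Finset.filter_subset _ _, ?_, Nat.one_le_two_pow, ?_, ?_, ?_, ?_⟩
  · have : (1 : ℝ) ≤ 2 ^ l₀.1 := one_le_pow₀ (by norm_num)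
    nlinarith
  · rw [Finset.card_eq_sum_card_fiberwise (f := lab) (t := Lab) (fun z hz => (hlab z hz).1)]
    calc ∑ l ∈ Lab, (X.filter fun z => lab z = l).card
        ≤ ∑ _l ∈ Lab, (X.filter fun z => lab z = l₀).card := Finset.sum_le_sum hmax
      _ = _ := by rw [Finset.sum_const, smul_eq_mul, hLc]
  · intro z hz
    rw [Finset.mem_filter] at hz
    have h1 := (hlab z hz.1).2
    rw [hz.2] at h1
    exact h1
  · intro j hj W hW
    rw [Finset.mem_filter, hg] at hW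
    have h1 : lev j W = l₀.1 := by rw [← hW.2]
    have h2 := hlev j W (hTa j W hW.1) (hal j hj W (hTS j hW.1))
    rw [h1] at h2
    refine ⟨h2.2.1.le, h2.2.2.trans (le_of_eq ?_)⟩
    ring
  · intro j hj W hW
    have hW' := hW
    rw [Finset.mem_filter, hg] at hW'
    have h1 : lev j W = l₀.1 := by rw [← hW'.2]
    have h2 : Nat.log 2 (cnt j W) = l₀.2 := by rw [← hW'.2]
    have h3 : ((T j).filter (fun W => g j W = l₀)).filter (fun W' => tb W' = tb W) =
        (T j).filter fun W' => lev j W' = lev j W ∧ tb W' = tb W := by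
      ext W'
      rw [Finset.mem_filter, Finset.mem_filter, Finset.mem_filter]
      constructor
      · rintro ⟨⟨h4, h5⟩, h6⟩
        refine ⟨h4, ?_, h6⟩
        rw [hg] at h5
        rw [h1, ← h5]
      · rintro ⟨h4, h5, h6⟩
        refine ⟨⟨h4, ?_⟩, h6⟩
        have h7 : cnt j W' = cnt j W := by
          rw [hcnt, hcnt, h5, h6]
        rw [hg, h7, h5, h1, h2]
    rw [h3, ← hcnt, ← h2]
    have h4 := hcnt0 j W hW'.1
    refine ⟨Nat.pow_log_le_self 2 h4, ?_⟩
    have h5 := Nat.lt_pow_succ_log_self (show 1 < 2 by norm_num) (cnt j W)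
    rw [pow_succ] at h5
    omega

end Pool.Agent.H68.LB
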